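import Pool.Agent.N646.MC.LaverB

/-!
# `b_b^eq < non(E)` for divergent `b`

For sets `Λ` and `K` with `#K ^ ℵ₀ = #K < #Λ` the preordered set `Cond Λ` forces the combinatorial
sentence `Cap K`, and the sentence `EscB b K` for every `b` (of the ground model) which tends to
infinity (`CapN` and `EscBN` are their literal translations into the forcing language). In ZFC
`Cap K` implies `#K < non(E)`, and `EscB b K` implies `b_b^eq ≤ #K`. So in the extension
`b_b^eq < non(E)` for all these `b`, for example for `b k = k + 2`, for which `∑ 1 / b k` diverges.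
On the other hand `non(E) ≤ b_2^eq` is a theorem of ZFC, so that the inequality cannot hold for all
divergent `b`.
-/

set_option autoImplicit false

namespace Pool.Agent.Results.MP_60e7f9_lc.DivergentBelowNonE

open Cardinal Filter Pool.Agent.N646.MC
open Pool.Agent.R593.Eq (beq nonE Divergent)

/-- (A) For all sets `Λ` and `K` with at least two elements such that `#K ^ ℵ₀ = #K < #Λ` (there
are such sets) all conditions of `Cond Λ` force `Cap K`, and `EscB b K` for all `b ≥ 1` which tend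
to infinity; `k + 2` is such a `b`, and it is divergent. (B) In ZFC, `Cap K` implies `#K < non(E)`,
and `EscB b K` implies `b_b^eq ≤ #K`. (C) In ZFC `non(E) ≤ b_2^eq`, and the constant `2` is
divergent. -/
theorem result :
    (∃ Λ K : Type, 2 ≤ #K ∧ #K ^ ℵ₀ = #K ∧ #K < #Λ) ∧
    (∀ Λ K : Type, 2 ≤ #K → #K ^ ℵ₀ = #K → #K < #Λ →
      Nonempty (Cond Λ) ∧ ∀ p : Cond Λ, p ∈ CapN (Cond Λ) K ∧
        ∀ b : ℕ → ℕ, (∀ k, 1 ≤ b k) → Tendsto b atTop atTop → p ∈ EscBN (Cond Λ) b K) ∧
    (Tendsto (fun k => k + 2 : ℕ → ℕ) atTop atTop ∧ Divergent (fun k => k + 2)) ∧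
    (∀ K : Type, Cap K → #K < nonE ∧
      ∀ b : ℕ → ℕ, EscB b K → beq b ≤ #K ∧ beq b < nonE) ∧
    (Divergent (fun _ => 2) ∧ nonE ≤ beq (fun _ => 2)) := by
  refine ⟨⟨Set (Set ℕ), Set ℕ, ?_, ?_, ?_⟩, fun Λ K h2 hK hΛ => ⟨inferInstance, fun p =>
    ⟨cap_forced hK h2 hΛ p, fun b hb hb2 => escB_forced ?_ hb hb2 p⟩⟩,
    ⟨tendsto_add_atTop_nat 2, divergent_add_two⟩,
    fun K h => ⟨lt_nonE h, fun b hb => ⟨beq_le_of_escB hb, (beq_le_of_escB hb).trans_lt (lt_nonE h)⟩⟩,
    divergent_two, nonE_le_beq_two⟩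
  · rw [mk_set, mk_nat, two_power_aleph0]
    exact (nat_lt_continuum 2).le
  · rw [mk_set, mk_nat, two_power_aleph0, continuum_power_aleph0]
  · rw [mk_set (α := Set ℕ)]
    exact cantor _
  · rw [← hK, ← two_power_aleph0]
    exact power_le_power_right h2

end Pool.Agent.Results.MP_60e7f9_lc.DivergentBelowNonE
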